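import Pool.Agent.Y137.GN.More

/-!
# The generalized conjecture of Tate and Beilinson for schemes generated by abelian varieties of
dimension at most five and by products of elliptic curves and abelian surfaces

Let `k` be a finite field. An abelian variety over `k` is modelled by `RedAV` (Honda, Tate): a finite
product of CM types `(E i, Φ i)` with Weil numbers `π i ∈ E i` that satisfy the formula of Shimura
and Taniyama; its cohomology of degree `n` consists of the alternating `n`-forms on the Tate module
`Ω ⊗ H_1`, on which the Frobenius endomorphism acts by `π`. The coefficients `Ω` are an algebraic
closure of `ℚ_ℓ`. The good abelian varieties `Y` (`IsGoodAVS`) are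

* **all abelian varieties of dimension at most five**;
* all products (up to isogeny over an algebraic closure) of a supersingular abelian variety and of
  powers of simple abelian varieties of dimension at most three, where any two of these of dimension
  three which are not supersingular and not isogenous have CM fields with different Galois closures,
  or Galois CM fields: in particular **all products of any number of elliptic curves and abelian
  surfaces**.

`Homology Ω V` are data of motivic homology `M X i j = H_i^M(X, ℚ(j)) = CH_j(X, i - 2 j) ⊗ ℚ` and of
`ℓ`-adic homology `E X i j = H_i(X, ℚ_ℓ(j))` (coefficients extended to `Ω`) of the separated schemes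
`X` of finite type over `k` (the elements of `V`), with the Frobenius and the regulator. The class
`Generated` contains the good abelian varieties (`IsGoodAbelianS`), the schemes whose motives are
direct summands of finite sums of twists of motives of members, and all of `Z`, `X`, `U = X ∖ Z` for
closed `Z` if it contains two of them. So it contains all products of any number of curves of genus
at most two and of open subsets of such curves, their symmetric powers, and the singular or open
varieties that are stratified by such varieties.

**Theorem.** For all schemes `X` of this class - smooth or not, proper or not - and all `i`, `j` the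
regulator induces an isomorphism of `H_i^M(X, ℚ(j)) ⊗ Ω` with the space of the Frobenius invariant
elements in `H_i(X, ℚ_ℓ(j)) ⊗ Ω`, and the eigenvalue one of the Frobenius on it is semisimple
(Jannsen's conjecture `TB(X)`). If `Z` is an arbitrary closed subscheme of `X` of dimension at most `d`
(`HasDimAtMost`), then the same is true for `U = X ∖ Z` and all twists `j ≥ d`, in all degrees `i`.

The inputs are theorems: on an abelian variety over `k`, the Tate classes over `k` in the system `AlgS`
are combinations of classes of cycles (`IsChowS`: Tate, Markman, Ramón Marí); homologically trivial
correspondences are nilpotent (Kimura); the properties of motivic cohomology (`IsMotivic`, Quillen)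
and of the homology theories. New is that all Tate classes on the good abelian varieties are in `AlgS`
(`Pool.Agent.Results.MP_ee618e_ag.SurfacesAndDimensionFive`). The passage from the Tate conjecture to
higher Chow groups is due to Soulé, Geisser, Kahn and Jannsen.
-/

set_option autoImplicit false

namespace Pool.Agent.Results.MP_2ce3e7_ag.SurfacesAndDimensionFive

open Pool.Agent.W495.TA Pool.Agent.W495.FM Pool.Agent.TH117.GN Pool.Agent.Y137.GN

/-- Jannsen's conjecture `TB(X)` for all members of the class generated by abelian varieties of
dimension at most five and by products of elliptic curves and abelian surfaces; the twists `j ≥ dim Z`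
on the complement of an arbitrary closed subscheme `Z`. -/
theorem result (p : ℕ) [Fact p.Prime] (ν : PadicAlgCl p ≃+* ℂ) (Ω : Type) [Field Ω]
    [IsAlgClosed Ω] [CharZero Ω] (V : Type) (T : Homology Ω V) (hT : IsHomology T) (X : V)
    (hX : Generated T (IsGoodAbelianS p ν T) X) :
    TB T X ∧ ∀ Z U d, IsTriple T Z X U → HasDimAtMost T Z d → ∀ i j, d ≤ j → IsRegIso T U i j :=
  ⟨tb_goodS hT hX, fun _ _ _ h hZ i _ hj => reg_opened hT h (tb_goodS hT hX) hZ hj i⟩

end Pool.Agent.Results.MP_2ce3e7_ag.SurfacesAndDimensionFive
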