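import Pool.Agent.Y116.UV.TB

/-!
# The generalized conjecture of Tate and Beilinson and the cubic hypersurfaces `T(x, y, z) = 1`

Let `k` be a finite field. For a trilinear form `t` over `k` in the variables `x_i`, `y_j`, `z_l` the
equation `t(x, y, z) = 1` defines an affine cubic hypersurface `Spec (Hyp t)`; it is smooth over `k`, in
every characteristic. Jannsen's conjecture `TB(X)` is true for all separated schemes `X` of finite type
over `k` - singular or not, quasi-projective or not - if and only if it is true for these cubic
hypersurfaces. If `k` has a prime number of elements, then the forms with the coefficients `0` and `1`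
suffice, that is, the hypersurfaces `∑_{(i, j, l) ∈ H} x_i y_j z_l = 1` of the tripartite hypergraphs `H`
(reductions of smooth schemes over `ℤ`).

The properties of motivic and `ℓ`-adic homology that are used (`IsHomology`): finiteness, invariance
of the image of the regulator, localisation sequences, invariance under the affine bundles of
Jouanolou's device, the retraction from `X × 𝔾_m` to `X`, and the conjecture for `Spec k` (Quillen).
-/

namespace Pool.Agent.Results.MP_2ce3e7_ag.TrilinearHypersurfaces

open Pool.Agent.Y116.UV

/-- `TB(X)` for all separated schemes of finite type over the finite field `k` is equivalent to `TB` for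
the smooth cubic hypersurfaces `t(x, y, z) = 1`, and, over a prime field, for the hypersurfaces of
tripartite hypergraphs. -/
theorem result (k : Type) [Field k] [Finite k] (Ω : Type) [Field Ω] [CharZero Ω]
    (T : Homology k Ω) (hT : IsHomology T) :
    ((∀ X : Sch k, FT True X → TB T X) ↔
      ∀ (a b c : ℕ) (t : Fin a → Fin b → Fin c → k), TB T (hypS t)) ∧
    (∀ (a b c : ℕ) (t : Fin a → Fin b → Fin c → k), Algebra.Smooth k (Hyp t)) ∧
    ((Nat.card k).Prime → ((∀ X : Sch k, FT True X → TB T X) ↔
      ∀ (a b c : ℕ) (H : Finset (Fin a × Fin b × Fin c)), TB T (tripS k H))) := by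
  refine ⟨⟨fun h a b c t => h _ (ft_aff True), fun h X hX => tb_all hT h X hX⟩,
    fun a b c t => hyp_smooth t, fun hk => ⟨fun h a b c H => h _ (ft_aff True),
      fun h X hX => tb_all_prime hT (int_surj hk) h X hX⟩⟩

end Pool.Agent.Results.MP_2ce3e7_ag.TrilinearHypersurfaces
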